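import Pool.Agent.H40.FC.Lma

/-!
# Minors of order five, checks 1
-/

set_option autoImplicit false

namespace Pool.Agent.H40.FC

open T CC

set_option maxRecDepth 100000 in
theorem dt0 : eqT (lap (tb tab) 5 (sk (fun j => j) 0)) M0 = true := by decide +kernel

set_option maxRecDepth 100000 in
theorem dt1 : eqT (lap (tb tab) 5 (sk (fun j => j) 1)) M1 = true := by decide +kernel

end Pool.Agent.H40.FC
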