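import Pool.Agent.H40.FC.Lma
import Pool.Agent.H40.FC.Lmb

/-!
# Minors of order five, checks 2
-/

set_option autoImplicit false

namespace Pool.Agent.H40.FC

open T CC

set_option maxRecDepth 100000 in
theorem dt2 : eqT (lap (tb tab) 5 (sk (fun j => j) 2)) M2 = true := by decide +kernel

set_option maxRecDepth 100000 in
theorem dt3 : eqT (lap (tb tab) 5 (sk (fun j => j) 3)) M3 = true := by decide +kernel

end Pool.Agent.H40.FC
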