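import Pool.Agent.H40.FC.Lma
import Pool.Agent.H40.FC.Lmb
import Pool.Agent.H40.FC.Lta

/-!
# The determinant of order six
-/

set_option autoImplicit false

namespace Pool.Agent.H40.FC

open T CC

/-- the minors of order five -/
noncomputable def MM : ℕ → T CC := nth [M0, M1, M2, M3, M4, M5]

set_option maxRecDepth 100000 in
theorem dt6 : eqT (sumT (fun j => tmul fC mC (tmap (sg (5 + j)) (tb tab 5 j)) (MM j)) 6) P6 = true := by decide +kernel

end Pool.Agent.H40.FC
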