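import Pool.Agent.H40.FC.Lta
import Pool.Agent.H40.FC.Ltd
import Pool.Agent.H40.FC.Lte

/-!
# The determinant of order six: checks of the children
-/

set_option autoImplicit false

namespace Pool.Agent.H40.FC

open T CC

set_option maxRecDepth 100000 in
theorem eq0 : eqT (nth (chT fC P6) 0) N0 = true := by decide +kernel

set_option maxRecDepth 100000 in
theorem eq1 : eqT (nth (chT fC P6) 1) N1 = true := by decide +kernel

set_option maxRecDepth 100000 in
theorem eq2 : eqT (nth (chT fC P6) 2) N2 = true := by decide +kernel

end Pool.Agent.H40.FC
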