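import Pool.Agent.H40.FC.Lta
import Pool.Agent.H40.FC.Lte
import Pool.Agent.H40.FC.Ltf

/-!
# The determinant of order six: checks of the children
-/

set_option autoImplicit false

namespace Pool.Agent.H40.FC

open T CC

set_option maxRecDepth 100000 in
theorem eq3 : eqT (nth (chT fC P6) 3) N3 = true := by decide +kernel

set_option maxRecDepth 100000 in
theorem eq4 : eqT (nth (chT fC P6) 4) N4 = true := by decide +kernel

set_option maxRecDepth 100000 in
theorem eq5 : eqT (nth (chT fC P6) 5) N5 = true := by decide +kernel

set_option maxRecDepth 100000 in
theorem len6 : (chT fC P6).length = 6 := by decide +kernel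

set_option maxRecDepth 100000 in
theorem cp6 : cp P6 = true := by decide +kernel

end Pool.Agent.H40.FC
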