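import Pool.Agent.H40.FC.Lta
import Pool.Agent.H40.FC.Ltb
import Pool.Agent.H40.FC.Ltc
import Pool.Agent.H40.FC.Lte
import Pool.Agent.H40.FC.Ltf

/-!
# The determinant of order six: checks of the children
-/

set_option autoImplicit false

namespace Pool.Agent.H40.FC

open T CC

set_option maxRecDepth 100000 in
theorem eq00 : eqT (nth (chT fC N0) 0) N00 = true := by decide +kernel

set_option maxRecDepth 100000 in
theorem eq000 : eqT (nth (chT fC N00) 0) N000 = true := by decide +kernel

set_option maxRecDepth 100000 in
theorem eq0000 : eqT (nth (chT fC N000) 0) N0000 = true := by decide +kernel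

set_option maxRecDepth 100000 in
theorem cs0 : cstT gC N0 = true := by decide +kernel

set_option maxRecDepth 100000 in
theorem cs00 : cstT gC N00 = true := by decide +kernel

set_option maxRecDepth 100000 in
theorem cs000 : cstT gC N000 = true := by decide +kernel

set_option maxRecDepth 100000 in
theorem cs2 : cstT gC N2 = true := by decide +kernel

set_option maxRecDepth 100000 in
theorem cs3 : cstT gC N3 = true := by decide +kernel

set_option maxRecDepth 100000 in
theorem cs4 : cstT gC N4 = true := by decide +kernel

end Pool.Agent.H40.FC
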