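import Pool.Agent.H40.FC.Ltc
import Pool.Agent.H40.FC.Ltd

/-!
# The determinant of order six: checks of the children
-/

set_option autoImplicit false

namespace Pool.Agent.H40.FC

open T CC

set_option maxRecDepth 100000 in
theorem eq10 : eqT (nth (chT fC N1) 0) N10 = true := by decide +kernel

set_option maxRecDepth 100000 in
theorem eq11 : eqT (nth (chT fC N1) 1) N11 = true := by decide +kernel

set_option maxRecDepth 100000 in
theorem cs1 : cstT gC N1 = true := by decide +kernel

set_option maxRecDepth 100000 in
theorem cs11 : cstT gC N11 = true := by decide +kernel

end Pool.Agent.H40.FC
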