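import Pool.Agent.H40.FC.Ltc

/-!
# The determinant of order six: checks of the trees
-/

set_option autoImplicit false

namespace Pool.Agent.H40.FC

open T CC

set_option maxRecDepth 100000 in
theorem tq10 : tre fC gC 20 N10 0 = true := by decide +kernel

end Pool.Agent.H40.FC
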