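import Pool.Agent.H40.FC.Ltf

/-!
# The determinant of order six: checks of the trees
-/

set_option autoImplicit false

namespace Pool.Agent.H40.FC

open T CC

set_option maxRecDepth 100000 in
theorem tq41 : tre fC gC 20 (nth (chT fC N4) 1) 1 = true := by decide +kernel

set_option maxRecDepth 100000 in
theorem tq42 : tre fC gC 20 (nth (chT fC N4) 2) 2 = true := by decide +kernel

set_option maxRecDepth 100000 in
theorem tq43 : tre fC gC 20 (nth (chT fC N4) 3) 3 = true := by decide +kernel

set_option maxRecDepth 100000 in
theorem tq44 : tre fC gC 20 (nth (chT fC N4) 4) 4 = true := by decide +kernel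

end Pool.Agent.H40.FC
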