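import Pool.Agent.H40.FC.Sm
import Pool.Agent.H40.FC.Da
import Pool.Agent.H40.FC.Db
import Pool.Agent.H40.FC.Dc
import Pool.Agent.H40.FC.Dd
import Pool.Agent.H40.FC.Ea
import Pool.Agent.H40.FC.Eb
import Pool.Agent.H40.FC.Ec
import Pool.Agent.H40.FC.Ed
import Pool.Agent.H40.FC.Ta
import Pool.Agent.H40.FC.Tb
import Pool.Agent.H40.FC.Tc
import Pool.Agent.H40.FC.Td
import Pool.Agent.H40.FC.Te
import Pool.Agent.H40.FC.Tf
import Pool.Agent.H40.FC.Tg
import Pool.Agent.H40.FC.Th
import Pool.Agent.H40.FC.Ti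
import Pool.Agent.H40.FC.Tj

/-!
# All determinants of order at most six
-/

set_option autoImplicit false

namespace Pool.Agent.H40.FC

theorem ev6 (q : ℝ) (e : ℕ → ℝ) (he : e 0 = 1) :
    evT (evQ q) e P6 1 = dd (ent q e) 6 (fun j => j) := by
  have h5 : ∀ j < 6, evT (evQ q) e (MM j) 1 = dd (ent q e) 5 (sk (fun j => j) j) := by
    intro j hj
    have hc : ∀ i < 5, sk (fun j => j) j i < 6 := by
      intro i hi
      rw [sk_eq]
      split_ifs <;> omega
    rw [← tab_ev q e he (by norm_num) _ hc]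
    interval_cases j
    · exact (eqT_spec dt0 q e 1).symm
    · exact (eqT_spec dt1 q e 1).symm
    · exact (eqT_spec dt2 q e 1).symm
    · exact (eqT_spec dt3 q e 1).symm
    · exact (eqT_spec dt4 q e 1).symm
    · exact (eqT_spec dt5 q e 1).symm
  rw [← eqT_spec dt6, ev_sumT, dd_succ]
  refine Finset.sum_congr rfl fun j hj => ?_
  rw [Finset.mem_range] at hj
  rw [ev_tmul (evQ_fC q) (evQ_mC q), ev_tmap (fun a => sg_eq (5 + j) q a),
    tb_spec tab_ok q e he 5 (by norm_num) j hj, h5 j hj]

theorem qs0000 : QS 0 N0000 := QS_tre tq0000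

theorem qs000 : QS 0 N000 := QS_node cs000 fun i hi => by
  interval_cases i
  exact QS_eq eq0000 qs0000

theorem qs00 : QS 0 N00 := QS_node cs00 fun i hi => by
  interval_cases i
  exact QS_eq eq000 qs000

theorem qs0 : QS 0 N0 := QS_node cs0 fun i hi => by
  interval_cases i
  exact QS_eq eq00 qs00

theorem qs11 : QS 1 N11 := QS_node cs11 fun i hi => by
  interval_cases i
  · exact QS_tre tq110
  · exact QS_tre tq111

theorem qs1 : QS 1 N1 := QS_node cs1 fun i hi => by
  interval_cases i
  · exact QS_eq eq10 (QS_tre tq10)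
  · exact QS_eq eq11 qs11

theorem qs2 : QS 2 N2 := QS_node cs2 fun i hi => by
  interval_cases i
  · exact QS_tre tq20
  · exact QS_tre tq21
  · exact QS_tre tq22

theorem qs3 : QS 3 N3 := QS_node cs3 fun i hi => by
  interval_cases i
  · exact QS_tre tq30
  · exact QS_tre tq31
  · exact QS_tre tq32
  · exact QS_tre tq33

theorem qs4 : QS 4 N4 := QS_node cs4 fun i hi => by
  interval_cases i
  · exact QS_tre tq40
  · exact QS_tre tq41
  · exact QS_tre tq42
  · exact QS_tre tq43
  · exact QS_tre tq44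

theorem good6 : Good 6 := fun _ hq S hS => dd_pos ev6 cp6 (fun i => by
  by_cases hi : i < (chT fC P6).length
  · rw [len6] at hi
    interval_cases i
    · exact QS_eq eq0 qs0
    · exact QS_eq eq1 qs1
    · exact QS_eq eq2 qs2
    · exact QS_eq eq3 qs3
    · exact QS_eq eq4 qs4
    · exact QS_eq eq5 (QS_tre tq5)
  · rw [nth_ge _ _ (by omega)]
    exact QS_tre (d := 0) rfl) hq S hS

theorem good (K : ℕ) (hK : K + 1 ≤ 7) : Good K := by
  have : K ≤ 6 := by omega
  interval_cases K
  · exact good0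
  · exact good1
  · exact good2
  · exact good3
  · exact good4
  · exact good5
  · exact good6

end Pool.Agent.H40.FC
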