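import Pool.Agent.H40.FC.Srt

/-!
# Coefficients, products and determinants
-/

set_option autoImplicit false

namespace Pool.Agent.H40.FC

/-! ### Polynomials in `q` -/

/-- a polynomial in `q`; each coefficient is given as a difference `p - m` -/
inductive CC : Type
  | o : CC
  | k (p m : ℕ) (t : CC) : CC

/-- the value of a polynomial in `q` -/
def evQ (q : ℝ) : CC → ℝ
  | CC.o => 0
  | CC.k p m t => ((p : ℝ) - (m : ℝ)) + q * evQ q t

/-- sum -/
noncomputable def fC (a : CC) : CC → CC :=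
  CC.rec (motive := fun _ => CC → CC) (fun b => b)
    (fun p m t ih b => CC.rec (motive := fun _ => CC) (CC.k p m t)
      (fun p1 m1 t1 _ => CC.k (Nat.add p p1) (Nat.add m m1) (ih t1)) b) a

/-- multiplication by the integer `x - y` -/
noncomputable def sC (x y : ℕ) (a : CC) : CC :=
  CC.rec (motive := fun _ => CC) CC.o
    (fun p m _ ih => CC.k (Nat.add (Nat.mul x p) (Nat.mul y m))
      (Nat.add (Nat.mul x m) (Nat.mul y p)) ih) a

/-- negation -/
noncomputable def nC (a : CC) : CC :=
  CC.rec (motive := fun _ => CC) CC.o (fun p m _ ih => CC.k m p ih) a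

/-- product -/
noncomputable def mC (a b : CC) : CC :=
  CC.rec (motive := fun _ => CC) CC.o (fun p m _ ih => fC (sC p m b) (CC.k 0 0 ih)) a

/-- all coefficients nonnegative -/
noncomputable def gC (a : CC) : Bool :=
  CC.rec (motive := fun _ => Bool) true
    (fun p m _ ih => Bool.rec (motive := fun _ => Bool) false ih (Nat.ble m p)) a

/-- all coefficients zero -/
noncomputable def zC (a : CC) : Bool :=
  CC.rec (motive := fun _ => Bool) true
    (fun p m _ ih => Bool.rec (motive := fun _ => Bool) false ih (Nat.beq m p)) a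

/-- first coefficient positive, the others nonnegative -/
noncomputable def pC (a : CC) : Bool :=
  CC.rec (motive := fun _ => Bool) false
    (fun p m t _ => Bool.rec (motive := fun _ => Bool) false (gC t) (Nat.ble (m + 1) p)) a

/-- a polynomial from its coefficients written in the base `2 ^ 100` -/
noncomputable def dC (n : ℕ) : ℕ → ℕ → CC :=
  Nat.rec (motive := fun _ => ℕ → ℕ → CC) (fun _ _ => CC.o)
    (fun _ ih p m => CC.k (Nat.mod p 1267650600228229401496703205376)
      (Nat.mod m 1267650600228229401496703205376)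
      (ih (Nat.div p 1267650600228229401496703205376)
        (Nat.div m 1267650600228229401496703205376))) n

theorem evQ_fC (q : ℝ) : ∀ a b : CC, evQ q (fC a b) = evQ q a + evQ q b
  | CC.o, b => by simp [fC, evQ]
  | CC.k p m a, CC.o => by simp [fC, evQ]
  | CC.k p m a, CC.k p1 m1 b => by
    show evQ q (CC.k (p + p1) (m + m1) (fC a b)) = _
    simp only [evQ, evQ_fC q a b]
    push_cast
    ring

theorem evQ_sC (q : ℝ) (x y : ℕ) : ∀ a : CC, evQ q (sC x y a) = ((x : ℝ) - (y : ℝ)) * evQ q a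
  | CC.o => by simp [sC, evQ]
  | CC.k p m a => by
    show evQ q (CC.k (x * p + y * m) (x * m + y * p) (sC x y a)) = _
    simp only [evQ, evQ_sC q x y a]
    push_cast
    ring

theorem evQ_nC (q : ℝ) : ∀ a : CC, evQ q (nC a) = (-1) * evQ q a
  | CC.o => by simp [nC, evQ]
  | CC.k p m a => by
    show evQ q (CC.k m p (nC a)) = _
    simp only [evQ, evQ_nC q a]
    ring

theorem evQ_mC (q : ℝ) : ∀ a b : CC, evQ q (mC a b) = evQ q a * evQ q b
  | CC.o, b => by simp [mC, evQ]
  | CC.k p m a, b => by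
    show evQ q (fC (sC p m b) (CC.k 0 0 (mC a b))) = _
    simp only [evQ, evQ_fC, evQ_sC, evQ_mC q a b]
    push_cast
    ring

theorem brec {b c : Bool} : (Bool.rec (motive := fun _ => Bool) false c b : Bool) = true ↔
    b = true ∧ c = true := by
  cases b <;> simp

theorem gC_k {p m : ℕ} {a : CC} : gC (CC.k p m a) = true ↔ m ≤ p ∧ gC a = true := by
  show (Bool.rec (motive := fun _ => Bool) false (gC a) (Nat.ble m p) : Bool) = true ↔ _
  rw [brec, Nat.ble_eq]

theorem gC_fC : ∀ a b : CC, gC a = true → gC b = true → gC (fC a b) = true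
  | CC.o, _, _, h => h
  | CC.k _ _ _, CC.o, h, _ => h
  | CC.k p m a, CC.k p1 m1 b, h1, h2 => by
    rw [gC_k] at h1 h2
    show gC (CC.k (p + p1) (m + m1) (fC a b)) = true
    exact gC_k.2 ⟨by omega, gC_fC a b h1.2 h2.2⟩

theorem gC_nonneg {q : ℝ} (hq : 0 ≤ q) : ∀ a : CC, gC a = true → 0 ≤ evQ q a
  | CC.o, _ => by simp [evQ]
  | CC.k p m a, h => by
    rw [gC_k] at h
    have h1 : (m : ℝ) ≤ (p : ℝ) := by exact_mod_cast h.1
    have h2 := gC_nonneg hq a h.2
    have h3 : 0 ≤ q * evQ q a := mul_nonneg hq h2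
    simp only [evQ]
    linarith

theorem zC_zero (q : ℝ) : ∀ a : CC, zC a = true → evQ q a = 0
  | CC.o, _ => rfl
  | CC.k p m a, h => by
    have h1 : (Bool.rec (motive := fun _ => Bool) false (zC a) (Nat.beq m p) : Bool) = true := h
    rw [brec, Nat.beq_eq] at h1
    rw [evQ, zC_zero q a h1.2, h1.1]
    simp

theorem pC_pos {q : ℝ} (hq : 0 ≤ q) : ∀ a : CC, pC a = true → 0 < evQ q a
  | CC.o, h => absurd (show false = true from h) (by simp)
  | CC.k p m a, h => by
    have h1 : (Bool.rec (motive := fun _ => Bool) false (gC a) (Nat.ble (m + 1) p) : Bool)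
        = true := h
    rw [brec, Nat.ble_eq] at h1
    have h2 : ((m : ℝ) + 1) ≤ (p : ℝ) := by exact_mod_cast h1.1
    have h3 := gC_nonneg hq a h1.2
    have h4 : 0 ≤ q * evQ q a := mul_nonneg hq h3
    simp only [evQ]
    linarith

/-! ### Products -/

variable {α : Type}

noncomputable def tmap (h : α → α) (t : T α) : T α :=
  T.rec (motive := fun _ => T α) T.z (fun c => T.l (h c)) (fun _ _ a b => T.n a b) t

/-- multiplication by a polynomial in the later variables, `F` is that multiplication -/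
noncomputable def tmi (F : T α → T α) (t : T α) : T α :=
  T.rec (motive := fun _ => T α) T.z (fun d => lift (F (T.l d))) (fun a' _ _ r => T.n (F a') r) t

noncomputable def tmul (f mu : α → α → α) (s : T α) : T α → T α :=
  T.rec (motive := fun _ => T α → T α) (fun _ => T.z) (fun c t => tmap (mu c) t)
    (fun _ _ iha ihb t => tadd f (tmi iha t) (conz (ihb t))) s

theorem ev_tmap {v : α → ℝ} {h : α → α} {c : ℝ} (hh : ∀ a, v (h a) = c * v a) (e : ℕ → ℝ)
    (t : T α) : ∀ i : ℕ, evT v e (tmap h t) i = c * evT v e t i := by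
  induction t with
  | z => intro i; simp [tmap, evT]
  | l d => intro i; simp [tmap, evT, hh]
  | n a b iha ihb =>
    intro i
    show evT v e (T.n (tmap h a) (tmap h b)) i = _
    rw [evT, evT, iha, ihb]; ring

theorem ev_tmul {v : α → ℝ} {f mu : α → α → α} (hf : ∀ a b, v (f a b) = v a + v b)
    (hm : ∀ a b, v (mu a b) = v a * v b) (e : ℕ → ℝ) (s : T α) : ∀ (t : T α) (i : ℕ),
    evT v e (tmul f mu s t) i = evT v e s i * evT v e t i := by
  induction s with
  | z => intro t i; simp [tmul, evT]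
  | l c =>
    intro t i
    show evT v e (tmap (mu c) t) i = _
    rw [ev_tmap (c := v c) (fun a => hm c a)]
    rfl
  | n a b iha ihb =>
    intro t i
    have hin : ∀ t : T α, evT v e (tmi (tmul f mu a) t) i
        = evT v e a (i + 1) * evT v e t i := by
      intro t
      induction t with
      | z => simp [tmi, evT]
      | l d =>
        show evT v e (lift (tmul f mu a (T.l d))) i = _
        rw [ev_lift, iha]
        rfl
      | n a' b' _ ihb' =>
        show evT v e (T.n (tmul f mu a a') (tmi (tmul f mu a) b')) i = _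
        rw [evT, ihb', iha, evT]; ring
    show evT v e (tadd f (tmi (tmul f mu a) t) (conz (tmul f mu b t))) i = _
    rw [ev_tadd hf, ev_conz, ihb, hin, evT]; ring

/-! ### Determinants -/

/-- drop column `k` -/
noncomputable def sk (c : ℕ → ℕ) (k j : ℕ) : ℕ :=
  Bool.rec (motive := fun _ => ℕ) (c j) (c (j + 1)) (Nat.ble k j)

theorem sk_eq (c : ℕ → ℕ) (k j : ℕ) : sk c k j = if j < k then c j else c (j + 1) := by
  unfold sk
  split_ifs with h
  · have : Nat.ble k j = false := by
      rw [← Bool.not_eq_true, Nat.ble_eq]; omega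
    rw [this]
  · have : Nat.ble k j = true := Nat.ble_eq_true_of_le (by omega)
    rw [this]

/-- multiplication by `(-1) ^ m` -/
noncomputable def sg (m : ℕ) (a : CC) : CC :=
  Nat.rec (motive := fun _ => CC) a (fun _ _ => nC a) (m % 2)

theorem sg_eq (m : ℕ) (q : ℝ) (a : CC) : evQ q (sg m a) = (-1) ^ m * evQ q a := by
  unfold sg
  rcases Nat.even_or_odd m with h | h
  · rw [Nat.even_iff.1 h, h.neg_one_pow]; simp
  · rw [Nat.odd_iff.1 h, h.neg_one_pow]
    exact evQ_nC q a

noncomputable def sumT (F : ℕ → T CC) (n : ℕ) : T CC :=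
  Nat.rec (motive := fun _ => T CC) T.z (fun k acc => tadd fC (F k) acc) n

noncomputable def lap (E : ℕ → ℕ → T CC) (n : ℕ) : (ℕ → ℕ) → T CC :=
  Nat.rec (motive := fun _ => (ℕ → ℕ) → T CC) (fun _ => T.l (CC.k 1 0 CC.o))
    (fun n ih c => sumT (fun k =>
      tmul fC mC (tmap (sg (n + k)) (E n (c k))) (ih (sk c k))) (n + 1)) n

/-- the determinant with the columns `c` -/
noncomputable def dd (F : ℕ → ℕ → ℝ) (n : ℕ) (c : ℕ → ℕ) : ℝ :=
  (Matrix.of fun i j : Fin n => F i (c j)).det

theorem dd_succ (F : ℕ → ℕ → ℝ) (n : ℕ) (c : ℕ → ℕ) : dd F (n + 1) c =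
    ∑ k ∈ Finset.range (n + 1), (-1) ^ (n + k) * F n (c k) * dd F n (sk c k) := by
  unfold dd
  rw [Matrix.det_succ_row _ (Fin.last n), Finset.sum_range]
  refine Finset.sum_congr rfl fun k _ => ?_
  simp only [Fin.val_last, Matrix.of_apply]
  congr 2
  ext i j
  simp only [Matrix.submatrix_apply, Matrix.of_apply, Fin.succAbove_last, Fin.val_castSucc, sk_eq]
  congr 1
  by_cases h : (j : ℕ) < k
  · rw [if_pos h, Fin.succAbove_of_castSucc_lt k j (by simpa [Fin.lt_def] using h)]
    rfl
  · rw [if_neg h, Fin.succAbove_of_le_castSucc k j (by simp [Fin.le_def]; omega)]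
    rfl

theorem ev_sumT (q : ℝ) (e : ℕ → ℝ) (F : ℕ → T CC) (i : ℕ) : ∀ n : ℕ,
    evT (evQ q) e (sumT F n) i = ∑ k ∈ Finset.range n, evT (evQ q) e (F k) i
  | 0 => by simp [sumT, evT]
  | n + 1 => by
    show evT (evQ q) e (tadd fC (F n) (sumT F n)) i = _
    rw [ev_tadd (evQ_fC q), ev_sumT q e F i n, Finset.sum_range_succ, add_comm]

theorem ev_lap (q : ℝ) (e : ℕ → ℝ) (E : ℕ → ℕ → T CC) (F : ℕ → ℕ → ℝ) (M N : ℕ)
    (hE : ∀ a < M, ∀ j < N, evT (evQ q) e (E a j) 1 = F a j) : ∀ n : ℕ, n ≤ M → ∀ c : ℕ → ℕ,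
    (∀ j < n, c j < N) → evT (evQ q) e (lap E n c) 1 = dd F n c
  | 0, _, c, _ => by
    show evT (evQ q) e (T.l (CC.k 1 0 CC.o)) 1 = _
    simp [evT, evQ, dd]
  | n + 1, hn, c, hc => by
    show evT (evQ q) e (sumT (fun k =>
      tmul fC mC (tmap (sg (n + k)) (E n (c k))) (lap E n (sk c k))) (n + 1)) 1 = _
    rw [ev_sumT, dd_succ]
    refine Finset.sum_congr rfl fun k hk => ?_
    rw [Finset.mem_range] at hk
    rw [ev_tmul (evQ_fC q) (evQ_mC q), ev_tmap (fun a => sg_eq (n + k) q a),
      hE n (by omega) (c k) (hc k hk), ev_lap q e E F M N hE n (by omega) (sk c k)]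
    intro j hj
    rw [sk_eq]
    split_ifs
    · exact hc j (by omega)
    · exact hc (j + 1) (by omega)

/-! ### The entries -/

/-- coefficients of `z ^ i`, `z = x / (1 - x)` -/
def zI : ℕ → ℕ → ℕ
  | 0, 0 => 1
  | _ + 1, 0 => 0
  | 0, _ + 1 => 0
  | i + 1, j + 1 => zI (i + 1) j + zI i j

/-- coefficients of the images of `z ^ i`; polynomials in `q`, `r = 1 + q` -/
noncomputable def mq : ℕ → ℕ → ℕ → CC
  | 0, j, i => CC.k (zI i j) 0 CC.o
  | a + 1, 0, i => mq a 0 i
  | a + 1, j + 1, i => fC (sC (j + 2) 0 (mq a (j + 1) i))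
      (mC (CC.k (a + 1) j (CC.k (a + 1) 0 CC.o)) (mq a j i))

noncomputable def entC (a j i : ℕ) : CC :=
  fC (mq (a + 1) (j + 1) i) (nC (mq a (j + 1) i))

noncomputable def lin (c : ℕ → CC) (m : ℕ) : ℕ → T CC :=
  Nat.rec (motive := fun _ => ℕ → T CC) (fun _ => T.l (c 0))
    (fun _ ih i => T.n (ih (i + 1)) (T.l (c i))) m

theorem ev_lin (q : ℝ) (e : ℕ → ℝ) (c : ℕ → CC) : ∀ (m i : ℕ),
    evT (evQ q) e (lin c m i) i =
      evQ q (c 0) + ∑ k ∈ Finset.range m, e (i + k) * evQ q (c (i + k))
  | 0, i => by simp [lin, evT]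
  | m + 1, i => by
    show evT (evQ q) e (T.n (lin c m (i + 1)) (T.l (c i))) i = _
    rw [evT, ev_lin q e c m (i + 1), Finset.sum_range_succ']
    simp only [evT, add_zero]
    have : ∀ k, i + 1 + k = i + (k + 1) := fun k => by omega
    simp only [this]
    ring

/-- zero test -/
noncomputable def zT (t : T CC) : Bool := nnT zC t

theorem zT_spec (q : ℝ) (e : ℕ → ℝ) : ∀ (t : T CC) (i : ℕ), zT t = true →
    evT (evQ q) e t i = 0 := by
  intro t
  induction t with
  | z => intro i _; simp [evT]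
  | l c => intro i h; exact zC_zero q c h
  | n a b iha ihb =>
    intro i h
    unfold zT at h
    rw [nn_n] at h
    rw [evT, iha _ h.1, ihb _ h.2]; ring

noncomputable def eqT (s t : T CC) : Bool := zT (tadd fC s (tmap nC t))

theorem eqT_spec {s t : T CC} (h : eqT s t = true) (q : ℝ) (e : ℕ → ℝ) (i : ℕ) :
    evT (evQ q) e s i = evT (evQ q) e t i := by
  have := zT_spec q e _ i h
  rw [ev_tadd (evQ_fC q), ev_tmap (fun a => evQ_nC q a)] at this
  linarith

noncomputable def allN (p : ℕ → Bool) (n : ℕ) : Bool :=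
  Nat.rec (motive := fun _ => Bool) true
    (fun k ih => Bool.rec (motive := fun _ => Bool) false ih (p k)) n

theorem allN_spec {p : ℕ → Bool} : ∀ {n : ℕ}, allN p n = true → ∀ k < n, p k = true
  | 0, _, k, hk => by omega
  | n + 1, h, k, hk => by
    have h1 : (Bool.rec (motive := fun _ => Bool) false (allN p n) (p n) : Bool) = true := h
    rw [brec] at h1
    rcases Nat.lt_or_ge k n with h3 | h3
    · exact allN_spec h1.2 k h3
    · have : k = n := by omega
      rw [this]; exact h1.1

noncomputable def nthL (L : List (List (T CC))) : ℕ → List (T CC) :=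
  List.rec (motive := fun _ => ℕ → List (T CC)) (fun _ => [])
    (fun x _ ih k => Nat.rec (motive := fun _ => List (T CC)) x (fun k' _ => ih k') k) L

/-- entry of a table -/
noncomputable def tb (L : List (List (T CC))) (a j : ℕ) : T CC := nth (nthL L a) j

/-- the table is right for rows and columns below `n` -/
noncomputable def tbOK (L : List (List (T CC))) (n : ℕ) : Bool :=
  allN (fun a => allN (fun j => eqT (tb L a j) (lin (entC a j) (j + 1) 1)) n) n

/-- the entry as a real number -/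
noncomputable def ent (q : ℝ) (e : ℕ → ℝ) (a j : ℕ) : ℝ :=
  ∑ i ∈ Finset.range (j + 2), e i * (evQ q (mq (a + 1) (j + 1) i) - evQ q (mq a (j + 1) i))

theorem ev_lin_ent (q : ℝ) (e : ℕ → ℝ) (he : e 0 = 1) (a j : ℕ) :
    evT (evQ q) e (lin (entC a j) (j + 1) 1) 1 = ent q e a j := by
  rw [ev_lin, ent, Finset.sum_range_succ' _ (j + 1), he, one_mul, add_comm]
  have h : ∀ i, evQ q (entC a j i) = evQ q (mq (a + 1) (j + 1) i) - evQ q (mq a (j + 1) i) := by
    intro i
    rw [entC, evQ_fC, evQ_nC]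
    ring
  simp only [h]
  congr 1
  exact Finset.sum_congr rfl fun k _ => by rw [add_comm 1 k]

theorem tb_spec {L : List (List (T CC))} {n : ℕ} (h : tbOK L n = true) (q : ℝ)
    (e : ℕ → ℝ) (he : e 0 = 1) : ∀ a < n, ∀ j < n, evT (evQ q) e (tb L a j) 1 = ent q e a j := by
  intro a ha j hj
  rw [eqT_spec (allN_spec (allN_spec h a ha) j hj), ev_lin_ent q e he]

/-- strict positivity of the constant term -/
noncomputable def cp (t : T CC) : Bool :=
  T.rec (motive := fun _ => Bool) false (fun c => pC c) (fun _ _ ia _ => ia) t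

theorem cp_spec {q : ℝ} (hq : 0 ≤ q) : ∀ (t : T CC) (i : ℕ), 1 ≤ i →
    cp t = true → 0 < evT (evQ q) (es []) t i := by
  intro t
  induction t with
  | z => intro i _ h; exact absurd (show false = true from h) (by simp)
  | l c => intro i _ h; exact pC_pos hq c h
  | n a b iha _ =>
    intro i hi h
    obtain ⟨i, rfl⟩ := Nat.exists_eq_succ_of_ne_zero (by omega : i ≠ 0)
    have h1 := iha (i.succ + 1) (by omega) h
    have h2 : es [] i.succ = 0 := rfl
    rw [evT, h2]
    linarith

/-- `PS` for all `q` -/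
def QS (m : ℕ) (P : T CC) : Prop := ∀ q : ℝ, 0 ≤ q → PS fC (evQ q) m P

theorem QS_tre {d m : ℕ} {P : T CC} (h : tre fC gC d P m = true) : QS m P :=
  fun _ hq => PS_tre gC_fC (gC_nonneg hq) h

theorem QS_eq {m : ℕ} {P Q : T CC} (h : eqT P Q = true) (hQ : QS m Q) : QS m P :=
  fun q hq => PS_congr (evQ_fC q) (fun e _ => eqT_spec h q e 1) (hQ q hq)

/-- a node from its children -/
theorem QS_node {m : ℕ} {P : T CC} (hc : cstT gC P = true)
    (h : ∀ i ≤ m, QS i (nth (chT fC P) i)) : QS m P :=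
  fun q hq => PS_node (gC_nonneg hq) hc fun i hi => h i hi q hq

/-- positivity of the determinant -/
theorem dd_pos {n : ℕ} {P : T CC}
    (hP : ∀ (q : ℝ) (e : ℕ → ℝ), e 0 = 1 → evT (evQ q) e P 1 = dd (ent q e) n (fun j => j))
    (hc : cp P = true) (ht : ∀ i, QS i (nth (chT fC P) i)) {q : ℝ} (hq : 0 ≤ q)
    (S : List ℝ) (hS : ∀ x ∈ S, 0 ≤ x) : 0 < dd (ent q (es S)) n (fun j => j) := by
  rw [← hP q (es S) (es_zero S)]
  have h1 := root_grow (evQ_fC q) (fun i => ht i q hq) S hS
  exact (cp_spec hq P 1 le_rfl hc).trans_le h1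

end Pool.Agent.H40.FC
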