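import Pool.Agent.H40.FC.Lap
import Pool.Agent.H37.TPC.RedS

/-!
# From the triangle to the determinants
-/

set_option autoImplicit false

open Polynomial Pool.Agent.H73.TP Pool.Agent.H37.TPC

namespace Pool.Agent.H40.FC

/-- the row operator on coefficient sequences -/
noncomputable def Tn (N : ℝ) (f : ℕ → ℝ) : ℕ → ℝ
  | 0 => f 0
  | j + 1 => (j + 2) * f (j + 1) + (N - j) * f j

/-- multiplication by `1 + c x` -/
noncomputable def lnr (c : ℝ) (f : ℕ → ℝ) : ℕ → ℝ
  | 0 => f 0
  | j + 1 => f (j + 1) + c * f j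

theorem lnr_comm (c d : ℝ) (f : ℕ → ℝ) : lnr c (lnr d f) = lnr d (lnr c f) := by
  funext j
  rcases j with _ | _ | j
  · rfl
  · simp only [lnr]; ring
  · simp only [lnr]; ring

theorem Tn_lnr (N : ℝ) (g : ℕ → ℝ) : Tn N (lnr (-1) g) = lnr (-1) (Tn (N - 1) g) := by
  funext j
  rcases j with _ | _ | j
  · rfl
  · simp only [lnr, Tn]; push_cast; ring
  · simp only [lnr, Tn]; push_cast; ring

/-- multiplication by `(1 - x) ^ k` -/
noncomputable def dm : ℕ → (ℕ → ℝ) → ℕ → ℝ
  | 0, g => g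
  | k + 1, g => lnr (-1) (dm k g)

theorem dm_lnr (c : ℝ) : ∀ (k : ℕ) (g : ℕ → ℝ), dm k (lnr c g) = lnr c (dm k g)
  | 0, _ => rfl
  | k + 1, g => by rw [dm, dm_lnr c k g, lnr_comm, dm]

theorem Tn_dm : ∀ (k : ℕ) (N : ℝ) (g : ℕ → ℝ), Tn N (dm k g) = dm k (Tn (N - k) g)
  | 0, N, g => by simp [dm]
  | k + 1, N, g => by
    rw [dm, Tn_lnr, Tn_dm k, dm]
    have : N - 1 - (k : ℝ) = N - ((k + 1 : ℕ) : ℝ) := by push_cast; ring
    rw [this]

theorem det_lnr (K : ℕ) (h : ℕ → ℕ → ℝ) :
    (Matrix.of fun i j : Fin K => lnr (-1) (h i) j).det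
      = (Matrix.of fun i j : Fin K => h i j).det := by
  rcases K with _ | K
  · simp
  · symm
    apply Matrix.det_eq_of_forall_col_eq_smul_add_pred (fun _ => (1 : ℝ))
    · intro i
      simp [lnr]
    · intro i j
      simp only [Matrix.of_apply, Fin.val_succ, Fin.val_castSucc, lnr]
      ring

theorem det_dm (K : ℕ) (h : ℕ → ℕ → ℝ) : ∀ k : ℕ,
    (Matrix.of fun i j : Fin K => dm k (h i) j).det = (Matrix.of fun i j : Fin K => h i j).det
  | 0 => rfl
  | k + 1 => (det_lnr K fun i => dm k (h i)).trans (det_dm K h k)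

/-! ### the start -/

theorem zI_tri : ∀ j i : ℕ, j < i → zI i j = 0
  | 0, i + 1, _ => rfl
  | j + 1, i + 1, h => by rw [zI, zI_tri j (i + 1) (by omega), zI_tri j i (by omega)]

/-- the sequence of `∏ (1 + (1 + v) z)`, `z = x / (1 - x)` -/
noncomputable def EL (L : List ℝ) (j : ℕ) : ℝ :=
  ∑ i ∈ Finset.range (j + 1), es L i * (zI i j : ℝ)

theorem EL_step (L : List ℝ) (j : ℕ) : EL L (j + 1) =
    EL L j - (zI 0 j : ℝ) + ∑ i ∈ Finset.range (j + 1), es L (i + 1) * (zI i j : ℝ) := by
  have h1 : EL L (j + 1) = ∑ i ∈ Finset.range (j + 1), es L (i + 1) *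
      ((zI (i + 1) j + zI i j : ℕ) : ℝ) := by
    rw [EL, Finset.sum_range_succ']
    have : (zI 0 (j + 1) : ℝ) = 0 := by simp [zI]
    rw [this, mul_zero, add_zero]
    rfl
  have h2 : EL L j = (zI 0 j : ℝ) + ∑ i ∈ Finset.range (j + 1), es L (i + 1) *
      (zI (i + 1) j : ℝ) := by
    rw [Finset.sum_range_succ, zI_tri j (j + 1) (by omega), EL, Finset.sum_range_succ']
    rw [es_zero]
    simp
    ring
  rw [h1, h2]
  push_cast
  simp only [mul_add, Finset.sum_add_distrib]
  ring

theorem EL_cons (x : ℝ) (L : List ℝ) : lnr (-1) (EL (x :: L)) = lnr x (EL L) := by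
  funext j
  rcases j with _ | j
  · simp [lnr, EL, es_zero]
  · simp only [lnr]
    rw [EL_step (x :: L), EL_step L]
    have : ∀ i, es (x :: L) (i + 1) = es L (i + 1) + (1 + x) * es L i := fun _ => rfl
    simp only [this, add_mul, Finset.sum_add_distrib]
    have h2 : ∑ i ∈ Finset.range (j + 1), (1 + x) * es L i * (zI i j : ℝ) = (1 + x) * EL L j := by
      rw [EL, Finset.mul_sum]
      exact Finset.sum_congr rfl fun i _ => by ring
    have h3 : ∑ i ∈ Finset.range (j + 1), 1 * es L i * (zI i j : ℝ) = EL L j := by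
      rw [EL]
      exact Finset.sum_congr rfl fun i _ => by ring
    have h4 : ∑ i ∈ Finset.range (j + 1), x * es L i * (zI i j : ℝ) = x * EL L j := by
      rw [EL, Finset.mul_sum]
      exact Finset.sum_congr rfl fun i _ => by ring
    rw [h3, h4]
    ring

/-- the product of the forms `1 + v x` -/
noncomputable def pl (L : List ℝ) : ℝ[X] := (L.map fun x => 1 + C x * X).prod

theorem dm_EL : ∀ L : List ℝ, dm L.length (EL L) = fun j => (pl L).coeff j
  | [] => by
    funext j
    rw [List.length_nil, dm, EL]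
    rcases j with _ | j
    · simp [es, zI, pl]
    · rw [Finset.sum_eq_zero]
      · simp [pl, coeff_one]
      · intro i _
        rcases i with _ | i
        · simp [zI]
        · simp [es]
  | x :: L => by
    have h : pl (x :: L) = (1 + C x * X) * pl L := by simp [pl]
    rw [List.length_cons, dm, ← dm_lnr, EL_cons, dm_lnr, dm_EL L]
    funext j
    rw [h]
    rcases j with _ | j
    · rw [lin_mul_coeff_zero]; rfl
    · rw [lin_mul_coeff_succ]; rfl

/-! ### the rows -/

noncomputable def Rr (r : ℝ) : ℕ → (ℕ → ℝ) → ℕ → ℝ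
  | 0, f => f
  | a + 1, f => Tn (r * (a + 1)) (Rr r a f)

theorem opA_Tn (N : ℝ) (p : ℝ[X]) : (fun j => (opA N p).coeff j) = Tn N fun j => p.coeff j := by
  funext j
  rcases j with _ | j
  · exact opA_coeff_zero N p
  · exact opA_coeff_succ N p j

theorem chS_dm (r n : ℕ) (u : ℝ[X]) (g : ℕ → ℝ) (hu : (fun j => u.coeff j) = dm (r * n) g) :
    ∀ a : ℕ, (fun j => (chS r n u a).coeff j) = dm (r * n) (Rr r a g)
  | 0 => hu
  | a + 1 => by
    rw [chS, opA_Tn, chS_dm r n u g hu a, Tn_dm, Rr]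
    congr 2
    push_cast
    ring

theorem Rr_zero (r : ℝ) (L : List ℝ) : ∀ a : ℕ, Rr r a (EL L) 0 = 1
  | 0 => by simp [Rr, EL, es_zero, zI]
  | a + 1 => Rr_zero r L a

theorem DS_dd (r n K : ℕ) (u : ℝ[X]) (L : List ℝ)
    (hu : (fun j => u.coeff j) = dm (r * n) (EL L)) :
    DS r n (K + 1) u = dd (fun a j => Rr r (a + 1) (EL L) (j + 1) - Rr r a (EL L) (j + 1)) K
      (fun j => j) := by
  have h1 : DS r n (K + 1) u = ini (fun a j => Rr (r : ℝ) a (EL L) j) (K + 1) 0 := by
    unfold DS ini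
    have h2 : ∀ i j : ℕ, (chS r n u i).coeff j = dm (r * n) (Rr (r : ℝ) i (EL L)) j :=
      fun i j => congrFun (chS_dm r n u _ hu i) j
    simp only [h2, zero_add]
    exact det_dm (K + 1) (fun i => Rr (r : ℝ) i (EL L)) (r * n)
  rw [h1, ini_step _ (fun a => by rw [Rr_zero]; exact one_ne_zero), Rr_zero, one_mul]
  unfold ini dd nev
  simp only [zero_add, Rr_zero, div_one, one_mul]

theorem Rr_mq (q : ℝ) (L : List ℝ) : ∀ (a j N : ℕ), j < N → Rr (1 + q) a (EL L) j =
    ∑ i ∈ Finset.range N, es L i * evQ q (mq a j i)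
  | 0, j, N, h => by
    show EL L j = _
    have h1 : Finset.range (j + 1) ⊆ Finset.range N := Finset.range_subset_range.2 (by omega)
    rw [EL, ← Finset.sum_subset h1]
    · exact Finset.sum_congr rfl fun i _ => by simp [mq, evQ]
    · intro i _ hi
      rw [Finset.mem_range] at hi
      simp [mq, evQ, zI_tri j i (by omega)]
  | a + 1, 0, N, h => Rr_mq q L a 0 N h
  | a + 1, j + 1, N, h => by
    show ((j : ℝ) + 2) * Rr (1 + q) a (EL L) (j + 1) +
      ((1 + q) * ((a : ℝ) + 1) - j) * Rr (1 + q) a (EL L) j = _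
    rw [Rr_mq q L a (j + 1) N h, Rr_mq q L a j N (by omega), Finset.mul_sum, Finset.mul_sum,
      ← Finset.sum_add_distrib]
    refine Finset.sum_congr rfl fun i _ => ?_
    rw [mq, evQ_fC, evQ_sC, evQ_mC]
    simp only [evQ]
    push_cast
    ring

theorem DS_ent (r n K : ℕ) (u : ℝ[X]) (L : List ℝ)
    (hu : (fun j => u.coeff j) = dm (r * n) (EL L)) :
    DS r n (K + 1) u = dd (ent ((r : ℝ) - 1) (es L)) K (fun j => j) := by
  rw [DS_dd r n K u L hu]
  congr 1
  funext a j
  have hr : (r : ℝ) = 1 + ((r : ℝ) - 1) := by ring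
  rw [ent]
  simp only [mul_sub, Finset.sum_sub_distrib]
  rw [← Rr_mq _ _ _ _ _ (by omega), ← Rr_mq _ _ _ _ _ (by omega), ← hr]

theorem pl_append (L M : List ℝ) : pl (L ++ M) = pl L * pl M := by
  simp [pl, List.map_append, List.prod_append]

theorem pl_replicate (m : ℕ) : pl (List.replicate m 0) = 1 := by
  simp [pl, List.map_replicate, List.prod_replicate]

theorem pr_pl (n : ℕ) (y : Fin n → ℝ) : pr y Finset.univ = pl (List.ofFn y) := by
  rw [pl, pr, List.map_ofFn, List.prod_ofFn]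
  rfl

/-- positivity of the initial minors with few columns -/
theorem DS_pos (C : ℕ) (H : ∀ K, K + 1 ≤ C → ∀ q : ℝ, 0 ≤ q → ∀ S : List ℝ, (∀ x ∈ S, 0 ≤ x) →
      0 < dd (ent q (es S)) K (fun j => j)) (r : ℕ) (hr : 1 ≤ r) (n K : ℕ) (hK : K ≤ C) :
    0 < DS r n K (rowP r n) := by
  rcases K with _ | K
  · simp [DS]
  · obtain ⟨y, hy, hyp⟩ := rowP_prod r hr n
    set L : List ℝ := List.ofFn y ++ List.replicate ((r - 1) * n) 0 with hL
    have hlen : L.length = r * n := by
      rw [hL, List.length_append, List.length_ofFn, List.length_replicate]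
      obtain ⟨r', rfl⟩ := Nat.exists_eq_succ_of_ne_zero (by omega : r ≠ 0)
      simp only [Nat.succ_eq_add_one, Nat.add_sub_cancel]
      ring
    have hpl : pl L = rowP r n := by
      rw [hL, pl_append, pl_replicate, mul_one, ← pr_pl, hyp]
    have hu : (fun j => (rowP r n).coeff j) = dm (r * n) (EL L) := by
      rw [← hlen, dm_EL, hpl]
    rw [DS_ent r n K _ L hu]
    apply H K hK
    · have : (1 : ℝ) ≤ r := by exact_mod_cast hr
      linarith
    · intro x hx
      rw [hL, List.mem_append] at hx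
      rcases hx with hx | hx
      · rw [List.mem_ofFn] at hx
        obtain ⟨i, rfl⟩ := hx
        exact (hy i).le
      · rw [(List.mem_replicate.1 hx).2]

/-- minors with few columns are nonnegative as soon as the small initial minors of the rows
`1, 2, …` are positive -/
theorem redC {r : ℕ} {E : ℕ → ℕ → ℤ} (h : IsE r E) (Cc : ℕ)
    (hini : ∀ K n, K ≤ Cc → 0 < ini (shE E) K n) :
    ∀ m : ℕ, ∀ f g : Fin m → ℕ, StrictMono f → StrictMono g → (∀ j, g j < Cc) →
      0 ≤ Matrix.det (Matrix.of fun i j => E (f i) (g j)) := by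
  intro m f g hf hg hgC
  rcases m with _ | m
  · simp
  have hrow : ∀ x k, E (max x 1) k = E x k := by
    intro x k
    rcases x with _ | x
    · simpa using h.one_eq k
    · rw [max_eq_left (by omega)]
  have hmat : (Matrix.of fun i j : Fin (m + 1) => E (f i) (g j))
      = Matrix.of fun i j : Fin (m + 1) => E (max (f i) 1) (g j) := by
    ext i j
    simp only [Matrix.of_apply]
    rw [hrow]
  by_cases hst : ∀ i j : Fin (m + 1), i < j → max (f i) 1 < max (f j) 1
  · have key : 0 ≤ mnr (shE E) (fun i : Fin (m + 1) => max (f i) 1 - 1) g := by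
      apply cryer_aux Cc (shE E) _ hini _ _ _ _ hg hgC
      · intro n k hnk
        unfold shE
        rw [h.tri n k hnk]
        simp
      · intro i j hij
        have h1 := hst i j hij
        have h2 : 1 ≤ max (f i) 1 := le_max_right _ _
        show max (f i) 1 - 1 < max (f j) 1 - 1
        omega
    have hcast : mnr (shE E) (fun i : Fin (m + 1) => max (f i) 1 - 1) g
        = ((Matrix.det (Matrix.of fun i j : Fin (m + 1) => E (max (f i) 1) (g j)) : ℤ) : ℝ) := by
      unfold mnr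
      have h3 := RingHom.map_det (Int.castRingHom ℝ)
        (Matrix.of fun i j : Fin (m + 1) => E (max (f i) 1) (g j))
      have h4 : (Int.castRingHom ℝ) (Matrix.det (Matrix.of fun i j : Fin (m + 1) =>
          E (max (f i) 1) (g j))) = ((Matrix.det (Matrix.of fun i j : Fin (m + 1) =>
          E (max (f i) 1) (g j)) : ℤ) : ℝ) := rfl
      rw [← h4, h3]
      congr 1
      ext i j
      have h2 : max (f i) 1 - 1 + 1 = max (f i) 1 := Nat.sub_add_cancel (le_max_right _ _)
      simp only [Matrix.of_apply, RingHom.mapMatrix_apply, Matrix.map_apply, shE, h2]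
      rfl
    rw [hmat]
    rw [hcast] at key
    exact_mod_cast key
  · push Not at hst
    obtain ⟨i, j, hij, hle⟩ := hst
    have h1 := hf hij
    have h2 : max (f i) 1 = max (f j) 1 :=
      le_antisymm (max_le_max_right 1 h1.le) hle
    rw [hmat]
    apply le_of_eq
    symm
    apply Matrix.det_zero_of_row_eq (ne_of_lt hij)
    ext k
    simp only [Matrix.of_apply, h2]

/-- the final reduction -/
theorem first_cols (C : ℕ) (H : ∀ K, K + 1 ≤ C → ∀ q : ℝ, 0 ≤ q → ∀ S : List ℝ,
      (∀ x ∈ S, 0 ≤ x) → 0 < dd (ent q (es S)) K (fun j => j)) (r : ℕ) (hr : 1 ≤ r)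
    (E : ℕ → ℕ → ℤ) (h : IsE r E) :
    ∀ m : ℕ, ∀ f g : Fin m → ℕ, StrictMono f → StrictMono g → (∀ j, g j < C) →
      0 ≤ Matrix.det (Matrix.of fun i j => E (f i) (g j)) :=
  redC h C fun K n hK => by rw [ini_eq h]; exact DS_pos C H r hr n K hK

end Pool.Agent.H40.FC
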