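import Pool.Agent.H40.FC.Tr

/-!
# Growth along sorted trees
-/

set_option autoImplicit false

open Polynomial

namespace Pool.Agent.H40.FC

variable {α : Type}

theorem uniq {N : ℕ} {a : ℕ → ℝ}
    (h : ∀ x : ℝ, 0 ≤ x → ∑ i ∈ Finset.range N, x ^ i * a i = 0) : ∀ i < N, a i = 0 := by
  set p : ℝ[X] := ∑ i ∈ Finset.range N, C (a i) * X ^ i with hp
  have hz : p = 0 := by
    apply Polynomial.eq_zero_of_infinite_isRoot
    apply Set.Infinite.mono (s := Set.Ici (0 : ℝ))
    · intro x hx
      have := h x hx
      simp only [Set.mem_ofPred_eq, Polynomial.IsRoot, hp, eval_finsetSum, eval_mul, eval_C,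
        eval_pow, eval_X]
      rw [← this]
      exact Finset.sum_congr rfl fun i _ => by ring
    · exact Set.Ici_infinite 0
  intro i hi
  have h1 : p.coeff i = a i := by
    rw [hp, finsetSum_coeff]
    simp only [coeff_C_mul_X_pow]
    rw [Finset.sum_ite_eq]
    simp [hi]
  rw [← h1, hz]; simp

theorem nth_ge (L : List (T α)) : ∀ k, L.length ≤ k → nth L k = T.z := by
  induction L with
  | nil => intro k _; rfl
  | cons x L ih =>
    intro k hk
    obtain ⟨k, rfl⟩ := Nat.exists_eq_succ_of_ne_zero (by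
      intro h0; subst h0; simp at hk : k ≠ 0)
    exact ih k (by simpa using hk)

theorem evW_sum (v : α → ℝ) (e : ℕ → ℝ) (w : ℝ) (i : ℕ) : ∀ (L : List (T α)) (N : ℕ),
    L.length ≤ N → evW v e w i L = ∑ k ∈ Finset.range N, w ^ k * evT v e (nth L k) i
  | [], N, _ => by
    have : ∀ k, nth ([] : List (T α)) k = T.z := fun _ => rfl
    simp [evW, this, evT]
  | x :: L, N, h => by
    obtain ⟨N, rfl⟩ := Nat.exists_eq_succ_of_ne_zero (by
      intro h0; subst h0; simp at h : N ≠ 0)
    rw [evW, evW_sum v e w i L N (by simpa using h), Nat.succ_eq_add_one, Finset.sum_range_succ',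
      Finset.mul_sum, add_comm]
    congr 1
    · exact Finset.sum_congr rfl fun k _ => by
        show w * (w ^ k * evT v e (nth L k) i) = w ^ (k + 1) * evT v e (nth L k) i
        ring
    · show evT v e x i = w ^ 0 * evT v e x i
      simp

/-- the operator on polynomials -/
noncomputable def D (f : α → α → α) (i : ℕ) (P : T α) : T α := nth (chT f P) i

variable {f : α → α → α} {v : α → ℝ}

/-- same values -/
def Eqv (v : α → ℝ) (P Q : T α) : Prop := ∀ e : ℕ → ℝ, e 0 = 1 → evT v e P 1 = evT v e Q 1

section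

variable (hf : ∀ a b, v (f a b) = v a + v b)

include hf

theorem ev_sum (e : ℕ → ℝ) (he : e 0 = 1) (w : ℝ) (P : T α) (N : ℕ)
    (hN : (chT f P).length ≤ N) : evT v (sh (1 + w) e) P 1 =
      evT v e P 1 + (1 + w) * ∑ k ∈ Finset.range N, w ^ k * evT v e (D f k P) 1 := by
  rw [ev_sh hf e he, evW_sum v e w 1 _ N hN]
  rfl

theorem D_congr {P Q : T α} (h : Eqv v P Q) (i : ℕ) : Eqv v (D f i P) (D f i Q) := by
  intro e he
  set N := (chT f P).length + (chT f Q).length + i + 1 with hN
  have key : ∀ k < N, evT v e (D f k P) 1 - evT v e (D f k Q) 1 = 0 := by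
    apply uniq
    intro x hx
    have h1 := ev_sum hf e he x P N (by omega)
    have h2 := ev_sum hf e he x Q N (by omega)
    have h3 : evT v (sh (1 + x) e) P 1 = evT v (sh (1 + x) e) Q 1 := h _ (by simpa [sh] using he)
    have h4 := h e he
    have h5 : (1 + x) * ∑ k ∈ Finset.range N, x ^ k * (evT v e (D f k P) 1 -
        evT v e (D f k Q) 1) = 0 := by
      simp only [mul_sub, Finset.sum_sub_distrib]
      linarith
    rcases mul_eq_zero.1 h5 with h6 | h6
    · linarith
    · exact h6
  linarith [key i (by omega)]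

theorem D_comm (P : T α) (i j : ℕ) : Eqv v (D f i (D f j P)) (D f j (D f i P)) := by
  intro e he
  set N := (chT f P).length + (∑ k ∈ Finset.range (chT f P).length, (chT f (D f k P)).length)
    + i + j + 1 with hN
  have hlen : ∀ k, (chT f (D f k P)).length ≤ N := by
    intro k
    by_cases hk : k < (chT f P).length
    · have := Finset.single_le_sum (f := fun k => (chT f (D f k P)).length)
        (fun _ _ => Nat.zero_le _) (Finset.mem_range.2 hk)
      omega
    · have : D f k P = T.z := nth_ge _ _ (by omega)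
      rw [this]
      exact Nat.zero_le _
  have hN0 : (chT f P).length ≤ N := by omega
  -- two steps
  have two : ∀ x y : ℝ, evT v (sh (1 + y) (sh (1 + x) e)) P 1 =
      evT v e P 1 + (1 + x) * (∑ k ∈ Finset.range N, x ^ k * evT v e (D f k P) 1) +
      (1 + y) * (∑ l ∈ Finset.range N, y ^ l * evT v e (D f l P) 1) +
      (1 + y) * (1 + x) * ∑ l ∈ Finset.range N, y ^ l *
        ∑ k ∈ Finset.range N, x ^ k * evT v e (D f k (D f l P)) 1 := by
    intro x y
    rw [ev_sum hf (sh (1 + x) e) (by simpa [sh] using he) y P N hN0, ev_sum hf e he x P N hN0]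
    have : ∀ l, evT v (sh (1 + x) e) (D f l P) 1 = evT v e (D f l P) 1 +
        (1 + x) * ∑ k ∈ Finset.range N, x ^ k * evT v e (D f k (D f l P)) 1 :=
      fun l => ev_sum hf e he x _ N (hlen l)
    simp only [this, mul_add, Finset.sum_add_distrib]
    have h2 : ∀ F : ℕ → ℝ, ∑ l ∈ Finset.range N, y ^ l * ((1 + x) * F l)
        = (1 + x) * ∑ l ∈ Finset.range N, y ^ l * F l := by
      intro F
      rw [Finset.mul_sum]
      exact Finset.sum_congr rfl fun l _ => by ring
    rw [h2]
    ring
  set c : ℕ → ℕ → ℝ := fun k l => evT v e (D f k (D f l P)) 1 - evT v e (D f l (D f k P)) 1 with hc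
  have h1 : ∀ y : ℝ, 0 ≤ y → ∀ x : ℝ, 0 ≤ x →
      ∑ k ∈ Finset.range N, x ^ k * ∑ l ∈ Finset.range N, y ^ l * c k l = 0 := by
    intro y hy x hx
    have ha := two x y
    have hb := two y x
    rw [sh_comm] at hb
    have hs : ∑ l ∈ Finset.range N, y ^ l *
        ∑ k ∈ Finset.range N, x ^ k * evT v e (D f k (D f l P)) 1 =
        ∑ k ∈ Finset.range N, x ^ k * ∑ l ∈ Finset.range N, y ^ l *
          evT v e (D f k (D f l P)) 1 := by
      simp only [Finset.mul_sum]
      rw [Finset.sum_comm]
      exact Finset.sum_congr rfl fun k _ => Finset.sum_congr rfl fun l _ => by ring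
    rw [hs] at ha
    have h3 : (1 + y) * (1 + x) * ∑ k ∈ Finset.range N, x ^ k *
        ∑ l ∈ Finset.range N, y ^ l * c k l = 0 := by
      simp only [hc, mul_sub, Finset.sum_sub_distrib]
      linarith
    rcases mul_eq_zero.1 h3 with h4 | h4
    · rcases mul_eq_zero.1 h4 with h5 | h5 <;> linarith
    · exact h4
  have h2 : ∀ y : ℝ, 0 ≤ y → ∀ k < N, ∑ l ∈ Finset.range N, y ^ l * c k l = 0 :=
    fun y hy => uniq (h1 y hy)
  have h3 : ∀ k < N, ∀ l < N, c k l = 0 := fun k hk => uniq fun y hy => h2 y hy k hk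
  have := h3 i (by omega) j (by omega)
  simp only [hc] at this
  linarith

omit hf in
/-- iterated operators -/
theorem D_z (i : ℕ) : D f i (T.z : T α) = T.z := rfl

/-- iterated operators, the first index acts first -/
noncomputable def DD (f : α → α → α) : List ℕ → T α → T α
  | [], P => P
  | i :: κ, P => DD f κ (D f i P)

theorem DD_congr : ∀ (κ : List ℕ) {P Q : T α}, Eqv v P Q → Eqv v (DD f κ P) (DD f κ Q)
  | [], _, _, h => h
  | i :: κ, _, _, h => DD_congr κ (D_congr hf h i)

theorem DD_perm {κ κ' : List ℕ} (h : κ.Perm κ') : ∀ P : T α, Eqv v (DD f κ P) (DD f κ' P) := by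
  induction h with
  | nil => intro P e _; rfl
  | cons x _ ih => intro P; exact ih (D f x P)
  | swap x y κ =>
    intro P
    exact DD_congr hf κ (D_comm hf P x y)
  | trans _ _ ih1 ih2 => intro P e he; exact (ih1 P e he).trans (ih2 P e he)

omit hf in
theorem DD_append (κ : List ℕ) (k : ℕ) : ∀ P : T α, DD f (κ ++ [k]) P = D f k (DD f κ P) := by
  induction κ with
  | nil => intro P; rfl
  | cons i κ ih => intro P; exact ih (D f i P)

end

/-! ### elementary symmetric functions -/

/-- elementary symmetric functions of the numbers `1 + v`, `v` in `L` -/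
def es : List ℝ → ℕ → ℝ
  | [], 0 => 1
  | [], _ + 1 => 0
  | _ :: _, 0 => 1
  | v :: L, j + 1 => es L (j + 1) + (1 + v) * es L j

theorem es_zero : ∀ L : List ℝ, es L 0 = 1
  | [] => rfl
  | _ :: _ => rfl

theorem es_cons (x : ℝ) (L : List ℝ) : es (x :: L) = sh (1 + x) (es L) := by
  funext j
  rcases j with _ | j
  · rw [sh, es_zero, es_zero]
  · rfl

theorem es_nonneg : ∀ L : List ℝ, (∀ v ∈ L, 0 ≤ v) → ∀ j, 0 ≤ es L j
  | [], _, 0 => by simp [es]
  | [], _, j + 1 => by simp [es]
  | v :: L, _, 0 => by simp [es]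
  | v :: L, h, j + 1 => by
    have h1 := es_nonneg L (fun v hv => h v (List.mem_cons_of_mem _ hv))
    have h2 := h v List.mem_cons_self
    have := h1 j
    have := h1 (j + 1)
    rw [es]
    positivity

/-! ### the tree -/

variable {g : α → Bool} (hf : ∀ a b, v (f a b) = v a + v b)
  (hg : ∀ a b, g a = true → g b = true → g (f a b) = true) (hgv : ∀ a, g a = true → 0 ≤ v a)

def OKT (f : α → α → α) (g : α → Bool) : ℕ → ℕ → T α → Prop
  | 0, _, P => nnT g P = true
  | d + 1, m, P => nnT g P = true ∨ (cstT g P = true ∧ ∀ i ≤ m, OKT f g d i (D f i P))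

theorem OKT_z (d m : ℕ) : OKT f g d m (T.z : T α) := by
  rcases d with _ | d
  · rfl
  · exact Or.inl rfl

theorem allI_spec {F : T α → ℕ → Bool} {m : ℕ} : ∀ (L : List (T α)) (i : ℕ),
    allI F m L i = true → ∀ k, i + k ≤ m → k < L.length → F (nth L k) (i + k) = true
  | [], _, _, _, _, h => by simp at h
  | x :: L, i, h, k, hk, hl => by
    have h0 : Nat.ble i m = true := Nat.ble_eq_true_of_le (by omega)
    have h1 : (Bool.rec (motive := fun _ => Bool) false (allI F m L (i + 1)) (F x i) : Bool)
        = true := by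
      have : allI F m (x :: L) i = (Bool.rec (motive := fun _ => Bool) true
        (Bool.rec (motive := fun _ => Bool) false (allI F m L (i + 1)) (F x i))
          (Nat.ble i m) : Bool) := rfl
      rw [this, h0] at h
      exact h
    have h2 : F x i = true := by
      by_contra hc
      rw [Bool.not_eq_true] at hc
      rw [hc] at h1
      simp at h1
    rw [h2] at h1
    rcases k with _ | k
    · exact h2
    · have := allI_spec L (i + 1) h1 k (by omega) (by simpa using hl)
      rw [show i + (k + 1) = i + 1 + k by omega]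
      exact this

theorem tre_spec : ∀ (d : ℕ) (P : T α) (m : ℕ), tre f g d P m = true → OKT f g d m P := by
  intro d
  induction d with
  | zero => intro P m h; exact h
  | succ d ih =>
    intro P m h
    have hd : tre f g (d + 1) P m = (Bool.rec (motive := fun _ => Bool)
      (Bool.rec (motive := fun _ => Bool) false (allI (tre f g d) m (chT f P) 0) (cstT g P)) true
        (nnT g P) : Bool) := rfl
    rw [hd] at h
    by_cases h1 : nnT g P = true
    · exact Or.inl h1
    · rw [Bool.not_eq_true] at h1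
      rw [h1] at h
      have h2 : cstT g P = true := by
        by_contra hc
        rw [Bool.not_eq_true] at hc
        rw [hc] at h
        simp at h
      rw [h2] at h
      refine Or.inr ⟨h2, fun i hi => ?_⟩
      by_cases hl : i < (chT f P).length
      · have := allI_spec (chT f P) 0 h i (by omega) hl
        rw [zero_add] at this
        exact ih _ _ this
      · have : D f i P = T.z := nth_ge _ _ (by omega)
        rw [this]
        exact OKT_z d i

theorem cst_spec (hgv : ∀ a, g a = true → 0 ≤ v a) : ∀ (t : T α) (i : ℕ), 1 ≤ i →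
    cstT g t = true → 0 ≤ evT v (es []) t i := by
  intro t
  induction t with
  | z => intro i _ _; simp [evT]
  | l c => intro i _ h; exact hgv c h
  | n a b iha _ =>
    intro i hi h
    obtain ⟨i, rfl⟩ := Nat.exists_eq_succ_of_ne_zero (by omega : i ≠ 0)
    have h1 := iha (i.succ + 1) (by omega) h
    have h2 : es [] i.succ = 0 := rfl
    rw [evT, h2]
    linarith

include hg in
theorem nn_DD : ∀ (κ : List ℕ) (P : T α), nnT g P = true → nnT g (DD f κ P) = true
  | [], _, h => h
  | i :: κ, P, h => nn_DD κ _ (nth_nn _ (NN_chT hg h) i)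

include hg hgv in
theorem OKT_spec : ∀ (d m : ℕ) (P : T α), OKT f g d m P → ∀ κ : List ℕ,
    κ.Pairwise (fun a b => b ≤ a) → (∀ i ∈ κ, i ≤ m) → 0 ≤ evT v (es []) (DD f κ P) 1 := by
  intro d
  induction d with
  | zero =>
    intro m P h κ _ _
    exact ev_nn (es_nonneg [] (by simp)) hgv _ _ (nn_DD hg κ P h)
  | succ d ih =>
    intro m P h κ hs hm
    rcases h with h | ⟨h1, h2⟩
    · exact ev_nn (es_nonneg [] (by simp)) hgv _ _ (nn_DD hg κ P h)
    · rcases κ with _ | ⟨i, κ⟩
      · exact cst_spec hgv P 1 le_rfl h1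
      · rw [List.pairwise_cons] at hs
        exact ih i (D f i P) (h2 i (hm i List.mem_cons_self)) κ hs.2 hs.1

include hf in
theorem pos_all {Q : T α} (hQ : ∀ κ : List ℕ, 0 ≤ evT v (es []) (DD f κ Q) 1) :
    ∀ L : List ℝ, (∀ x ∈ L, 0 ≤ x) → ∀ κ : List ℕ, 0 ≤ evT v (es L) (DD f κ Q) 1
  | [], _, κ => hQ κ
  | x :: L, hL, κ => by
    have hL' : ∀ y ∈ L, 0 ≤ y := fun y hy => hL y (List.mem_cons_of_mem _ hy)
    have hx : 0 ≤ x := hL x List.mem_cons_self
    have ih := pos_all hQ L hL'
    rw [es_cons, ev_sum hf (es L) (es_zero L) x _ _ le_rfl]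
    have h1 : 0 ≤ ∑ k ∈ Finset.range (chT f (DD f κ Q)).length,
        x ^ k * evT v (es L) (D f k (DD f κ Q)) 1 := by
      apply Finset.sum_nonneg
      intro k _
      have := ih (κ ++ [k])
      rw [DD_append] at this
      positivity
    have h2 := ih κ
    positivity

/-- all sorted iterates with indices at most `m` are nonnegative at the empty family -/
def PS (f : α → α → α) (v : α → ℝ) (m : ℕ) (P : T α) : Prop :=
  ∀ κ : List ℕ, κ.Pairwise (fun a b => b ≤ a) → (∀ i ∈ κ, i ≤ m) →
    0 ≤ evT v (es []) (DD f κ P) 1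

include hg hgv in
theorem PS_tre {d m : ℕ} {P : T α} (h : tre f g d P m = true) : PS f v m P :=
  fun κ hs hm => OKT_spec hg hgv d m P (tre_spec d P m h) κ hs hm

include hg hgv in
theorem PS_nn {m : ℕ} {P : T α} (h : nnT g P = true) : PS f v m P :=
  PS_tre hg hgv (d := 0) h

include hf in
theorem PS_congr {m : ℕ} {P Q : T α} (h : Eqv v P Q) (hQ : PS f v m Q) : PS f v m P :=
  fun κ hs hm => by
    rw [DD_congr hf κ h (es []) (es_zero [])]
    exact hQ κ hs hm

include hgv in
theorem PS_node {m : ℕ} {P : T α} (hc : cstT g P = true) (h : ∀ i ≤ m, PS f v i (D f i P)) :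
    PS f v m P := by
  intro κ hs hm
  rcases κ with _ | ⟨i, κ⟩
  · exact cst_spec hgv P 1 le_rfl hc
  · rw [List.pairwise_cons] at hs
    exact h i (hm i List.mem_cons_self) κ hs.2 hs.1

include hg hgv in
/-- beyond the last child -/
theorem PS_ge {m i : ℕ} {P : T α} (h : (chT f P).length ≤ i) : PS f v m (D f i P) := by
  have : D f i P = T.z := nth_ge _ _ h
  rw [this]
  exact PS_nn hg hgv rfl

include hf in
/-- the value of the root grows when forms are added -/
theorem root_grow {P : T α} (hOK : ∀ i, PS f v i (D f i P)) :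
    ∀ L : List ℝ, (∀ x ∈ L, 0 ≤ x) → evT v (es []) P 1 ≤ evT v (es L) P 1 := by
  have hpos : ∀ (k : ℕ) (κ : List ℕ), 0 ≤ evT v (es []) (DD f κ (D f k P)) 1 := by
    intro k κ
    set κ' := (k :: κ).mergeSort (fun a b => decide (b ≤ a)) with hκ'
    have hperm : (k :: κ).Perm κ' := (List.mergeSort_perm _ _).symm
    have h1 : evT v (es []) (DD f (k :: κ) P) 1 = evT v (es []) (DD f κ' P) 1 :=
      DD_perm hf hperm P (es []) (es_zero [])
    have hs : κ'.Pairwise (fun a b => b ≤ a) := by
      have := List.pairwise_mergeSort (le := fun a b : ℕ => decide (b ≤ a))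
        (fun a b c h1 h2 => by simp only [decide_eq_true_eq] at *; omega)
        (fun a b => by simp only [Bool.or_eq_true, decide_eq_true_eq]; omega) (k :: κ)
      simpa using this
    show 0 ≤ evT v (es []) (DD f (k :: κ) P) 1
    rw [h1]
    rcases hκ : κ' with _ | ⟨i, κ''⟩
    · rw [hκ] at hperm
      exact absurd hperm (by simp)
    · rw [hκ, List.pairwise_cons] at hs
      exact hOK i κ'' hs.2 hs.1
  intro L
  induction L with
  | nil => intro _; exact le_rfl
  | cons x L ih =>
    intro hL
    have hL' : ∀ y ∈ L, 0 ≤ y := fun y hy => hL y (List.mem_cons_of_mem _ hy)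
    have hx : 0 ≤ x := hL x List.mem_cons_self
    refine (ih hL').trans ?_
    rw [es_cons, ev_sum hf (es L) (es_zero L) x _ _ le_rfl]
    have h1 : 0 ≤ ∑ k ∈ Finset.range (chT f P).length,
        x ^ k * evT v (es L) (D f k P) 1 := by
      apply Finset.sum_nonneg
      intro k _
      have := pos_all hf (hpos k) L hL' []
      have h3 : 0 ≤ evT v (es L) (D f k P) 1 := this
      positivity
    have : 0 ≤ (1 + x) * ∑ k ∈ Finset.range (chT f P).length,
        x ^ k * evT v (es L) (D f k P) 1 := by positivity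
    linarith

end Pool.Agent.H40.FC
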