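import Mathlib

/-!
# Polynomials in `e_1, e_2, …` as trees
-/

set_option autoImplicit false

namespace Pool.Agent.H40.FC

/-- a polynomial in `e_i, e_(i+1), …`: zero, a constant, or `a + e_i * b` with `a` a polynomial in
`e_(i+1), …` -/
inductive T (α : Type) : Type
  | z : T α
  | l (c : α) : T α
  | n (a b : T α) : T α

variable {α : Type}

noncomputable def tadd (f : α → α → α) (s : T α) : T α → T α :=
  T.rec (motive := fun _ => T α → T α) (fun t => t)
    (fun c t => T.rec (motive := fun _ => T α) (T.l c) (fun d => T.l (f c d))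
      (fun _ b iha _ => T.n iha b) t)
    (fun a b iha ihb t => T.rec (motive := fun _ => T α) (T.n a b) (fun d => T.n (iha (T.l d)) b)
      (fun a' b' _ _ => T.n (iha a') (ihb b')) t) s

/-- multiplication by the current variable -/
noncomputable def conz (a : T α) : T α :=
  T.rec (motive := fun _ => T α) T.z (fun c => T.n T.z (T.l c)) (fun x y _ _ => T.n T.z (T.n x y)) a

/-- going down by one variable -/
noncomputable def lift (a : T α) : T α :=
  T.rec (motive := fun _ => T α) T.z (fun c => T.l c) (fun x y _ _ => T.n (T.n x y) T.z) a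

/-- multiplication by the next variable -/
noncomputable def mnx (a : T α) : T α :=
  T.rec (motive := fun _ => T α) T.z (fun c => T.n (T.n T.z (T.l c)) T.z)
    (fun x _ _ ih => T.n (conz x) ih) a

noncomputable def lmap (f : T α → T α) (L : List (T α)) : List (T α) :=
  List.rec (motive := fun _ => List (T α)) [] (fun x _ ih => f x :: ih) L

noncomputable def addW (f : α → α → α) (L : List (T α)) : List (T α) → List (T α) :=
  List.rec (motive := fun _ => List (T α) → List (T α)) (fun M => M)
    (fun x xs ih M => List.rec (motive := fun _ => List (T α)) (x :: xs)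
      (fun y ys _ => tadd f x y :: ih ys) M) L

/-- the substitution `e_j -> e_j + w * e_(j-1)`, collected by powers of `w` -/
noncomputable def lo (f : α → α → α) (t : T α) : List (T α) :=
  T.rec (motive := fun _ => List (T α)) [] (fun c => [T.l c])
    (fun _ _ la lb => addW f (lmap lift la) (addW f (lmap mnx lb) (T.z :: lmap conz lb))) t

/-- the same at the first variable, `e_0 = 1` -/
noncomputable def lo1 (f : α → α → α) (t : T α) : List (T α) :=
  T.rec (motive := fun _ => List (T α)) [] (fun c => [T.l c])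
    (fun a _ _ lb => addW f (lo f a) (addW f (lmap conz lb) (T.z :: lb))) t

noncomputable def mvT (f : α → α → α) (L : List (T α)) : T α → List (T α) :=
  List.rec (motive := fun _ => T α → List (T α)) (fun p => [p])
    (fun x _ ih p => tadd f p x :: ih x) L

/-- from powers of `w = 1 + v` to powers of `v` -/
noncomputable def hvT (f : α → α → α) (L : List (T α)) : List (T α) :=
  List.rec (motive := fun _ => List (T α)) [] (fun x _ ih => mvT f ih x) L

noncomputable def tailT (L : List (T α)) : List (T α) :=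
  List.rec (motive := fun _ => List (T α)) [] (fun _ xs _ => xs) L

/-- the polynomials `P_i` with `P(e + w e') - P(e) = w * ∑ v ^ i * P_i(e)`, `w = 1 + v` -/
noncomputable def chT (f : α → α → α) (t : T α) : List (T α) := hvT f (tailT (lo1 f t))

noncomputable def nth (L : List (T α)) : ℕ → T α :=
  List.rec (motive := fun _ => ℕ → T α) (fun _ => T.z)
    (fun x _ ih k => Nat.rec (motive := fun _ => T α) x (fun k' _ => ih k') k) L

noncomputable def nnT (g : α → Bool) (t : T α) : Bool :=
  T.rec (motive := fun _ => Bool) true (fun c => g c)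
    (fun _ _ ia ib => Bool.rec (motive := fun _ => Bool) false ib ia) t

noncomputable def cstT (g : α → Bool) (t : T α) : Bool :=
  T.rec (motive := fun _ => Bool) true (fun c => g c) (fun _ _ ia _ => ia) t

noncomputable def allI (F : T α → ℕ → Bool) (m : ℕ) (L : List (T α)) : ℕ → Bool :=
  List.rec (motive := fun _ => ℕ → Bool) (fun _ => true)
    (fun C _ ih i => Bool.rec (motive := fun _ => Bool) true
      (Bool.rec (motive := fun _ => Bool) false (ih (i + 1)) (F C i)) (Nat.ble i m)) L

noncomputable def tre (f : α → α → α) (g : α → Bool) (d : ℕ) : T α → ℕ → Bool :=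
  Nat.rec (motive := fun _ => T α → ℕ → Bool) (fun P _ => nnT g P)
    (fun _ ih P m => Bool.rec (motive := fun _ => Bool)
      (Bool.rec (motive := fun _ => Bool) false (allI ih m (chT f P) 0) (cstT g P)) true (nnT g P)) d

/-! ### Values -/

def evT (v : α → ℝ) (e : ℕ → ℝ) : T α → ℕ → ℝ
  | T.z, _ => 0
  | T.l c, _ => v c
  | T.n a b, i => evT v e a (i + 1) + e i * evT v e b i

def evW (v : α → ℝ) (e : ℕ → ℝ) (w : ℝ) (i : ℕ) : List (T α) → ℝ
  | [] => 0
  | x :: L => evT v e x i + w * evW v e w i L

/-- `e_j -> e_j + w * e_(j-1)` -/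
def sh (w : ℝ) (e : ℕ → ℝ) : ℕ → ℝ
  | 0 => e 0
  | j + 1 => e (j + 1) + w * e j

theorem sh_comm (w w' : ℝ) (e : ℕ → ℝ) : sh w (sh w' e) = sh w' (sh w e) := by
  funext j
  rcases j with _ | _ | j
  · rfl
  · simp only [sh]; ring
  · simp only [sh]; ring

theorem sh_zero (e : ℕ → ℝ) : sh 0 e = e := by
  funext j
  rcases j with _ | j
  · rfl
  · simp [sh]

variable {f : α → α → α} {v : α → ℝ} (hf : ∀ a b, v (f a b) = v a + v b) (e : ℕ → ℝ)

include hf

theorem ev_tadd : ∀ (s t : T α) (i : ℕ),
    evT v e (tadd f s t) i = evT v e s i + evT v e t i := by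
  intro s
  induction s with
  | z => intro t i; simp [tadd, evT]
  | l c =>
    intro t
    induction t with
    | z => intro i; simp [tadd, evT]
    | l d => intro i; simp [tadd, evT, hf]
    | n a b iha _ =>
      intro i
      have h := iha (i + 1)
      show evT v e (T.n (tadd f (T.l c) a) b) i = _
      simp only [evT] at h ⊢
      linarith
  | n a b iha ihb =>
    intro t i
    rcases t with _ | d | ⟨a', b'⟩
    · simp [tadd, evT]
    · have h := iha (T.l d) (i + 1)
      show evT v e (T.n (tadd f a (T.l d)) b) i = _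
      simp only [evT] at h ⊢
      linarith
    · have h1 := iha a' (i + 1)
      have h2 := ihb b' i
      show evT v e (T.n (tadd f a a') (tadd f b b')) i = _
      simp only [evT]
      rw [h1, h2]; ring

omit hf in
theorem ev_conz (a : T α) (i : ℕ) : evT v e (conz a) i = e i * evT v e a i := by
  cases a <;> simp [conz, evT]

omit hf in
theorem ev_lift (a : T α) (i : ℕ) : evT v e (lift a) i = evT v e a (i + 1) := by
  cases a <;> simp [lift, evT]

omit hf in
theorem ev_mnx (a : T α) (i : ℕ) : evT v e (mnx a) i = e (i + 1) * evT v e a i := by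
  induction a with
  | z => simp [mnx, evT]
  | l c => simp [mnx, evT]
  | n x y _ ihy =>
    show evT v e (T.n (conz x) (mnx y)) i = _
    simp only [evT]
    rw [ev_conz, ihy]; ring

omit hf in
theorem evW_lmap {F : T α → T α} {c : ℝ} {i j : ℕ} (hF : ∀ x, evT v e (F x) i = c * evT v e x j)
    (w : ℝ) : ∀ L : List (T α), evW v e w i (lmap F L) = c * evW v e w j L
  | [] => by simp [lmap, evW]
  | x :: L => by
    show evW v e w i (F x :: lmap F L) = _
    rw [evW, evW, hF, evW_lmap hF w L]; ring

theorem evW_addW (w : ℝ) (i : ℕ) : ∀ L M : List (T α),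
    evW v e w i (addW f L M) = evW v e w i L + evW v e w i M
  | [], M => by simp [addW, evW]
  | x :: L, [] => by simp [addW, evW]
  | x :: L, y :: M => by
    show evW v e w i (tadd f x y :: addW f L M) = _
    rw [evW, evW, evW, ev_tadd hf, evW_addW w i L M]; ring

theorem evW_lo (w : ℝ) (t : T α) : ∀ i : ℕ,
    evW v e w i (lo f t) = evT v (sh w e) t (i + 1) := by
  induction t with
  | z => intro i; simp [lo, evW, evT]
  | l c => intro i; simp [lo, evW, evT]
  | n a b iha ihb =>
    intro i
    show evW v e w i (addW f (lmap lift (lo f a)) (addW f (lmap mnx (lo f b))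
      (T.z :: lmap conz (lo f b)))) = _
    rw [evW_addW hf, evW_addW hf, evW,
      evW_lmap e (F := lift) (c := 1) (j := i + 1) (fun x => by rw [ev_lift, one_mul]),
      evW_lmap e (F := mnx) (c := e (i + 1)) (j := i) (fun x => ev_mnx e x i),
      evW_lmap e (F := conz) (c := e i) (j := i) (fun x => ev_conz e x i), iha, ihb]
    simp only [evT, sh]
    ring

theorem evW_lo1 (he : e 0 = 1) (w : ℝ) (t : T α) :
    evW v e w 1 (lo1 f t) = evT v (sh w e) t 1 := by
  induction t with
  | z => simp [lo1, evW, evT]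
  | l c => simp [lo1, evW, evT]
  | n a b _ ihb =>
    show evW v e w 1 (addW f (lo f a) (addW f (lmap conz (lo1 f b)) (T.z :: lo1 f b))) = _
    rw [evW_addW hf, evW_addW hf, evW,
      evW_lmap e (F := conz) (c := e 1) (j := 1) (fun x => ev_conz e x 1), evW_lo hf, ihb]
    simp only [evT, sh, he]
    ring

theorem evW_mvT (w : ℝ) (i : ℕ) : ∀ (L : List (T α)) (p : T α),
    evW v e w i (mvT f L p) = evT v e p i + (1 + w) * evW v e w i L
  | [], p => by simp [mvT, evW]
  | x :: L, p => by
    show evW v e w i (tadd f p x :: mvT f L x) = _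
    rw [evW, evW, ev_tadd hf, evW_mvT w i L x]; ring

theorem evW_hvT (w : ℝ) (i : ℕ) : ∀ L : List (T α),
    evW v e w i (hvT f L) = evW v e (1 + w) i L
  | [] => rfl
  | x :: L => by
    show evW v e w i (mvT f (hvT f L) x) = _
    rw [evW_mvT hf, evW, evW_hvT w i L]

/-- the main step -/
theorem ev_sh (he : e 0 = 1) (w : ℝ) (t : T α) :
    evT v (sh (1 + w) e) t 1 = evT v e t 1 + (1 + w) * evW v e w 1 (chT f t) := by
  have h1 := evW_lo1 hf e he (1 + w) t
  have h2 := evW_lo1 hf e he 0 t
  rw [sh_zero] at h2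
  unfold chT
  rw [evW_hvT hf, ← h1, ← h2]
  rcases lo1 f t with _ | ⟨x, L⟩
  · simp [tailT, evW]
  · simp [tailT, evW]

omit hf

/-! ### Nonnegative coefficients -/

section nn

variable {g : α → Bool} (hg : ∀ a b, g a = true → g b = true → g (f a b) = true)

theorem nn_n {g : α → Bool} {a b : T α} :
    nnT g (T.n a b) = true ↔ nnT g a = true ∧ nnT g b = true := by
  show (Bool.rec (motive := fun _ => Bool) false (nnT g b) (nnT g a) : Bool) = true ↔ _
  cases nnT g a <;> simp

include hg

theorem nn_tadd : ∀ s t : T α, nnT g s = true → nnT g t = true → nnT g (tadd f s t) = true := by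
  intro s
  induction s with
  | z => intro t _ h; exact h
  | l c =>
    intro t
    induction t with
    | z => intro h _; exact h
    | l d => intro h1 h2; exact hg _ _ h1 h2
    | n a b iha _ =>
      intro h1 h2
      rw [nn_n] at h2
      show nnT g (T.n (tadd f (T.l c) a) b) = true
      exact nn_n.2 ⟨iha h1 h2.1, h2.2⟩
  | n a b iha ihb =>
    intro t h1 h2
    rw [nn_n] at h1
    rcases t with _ | d | ⟨a', b'⟩
    · exact nn_n.2 h1
    · show nnT g (T.n (tadd f a (T.l d)) b) = true
      exact nn_n.2 ⟨iha _ h1.1 h2, h1.2⟩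
    · rw [nn_n] at h2
      show nnT g (T.n (tadd f a a') (tadd f b b')) = true
      exact nn_n.2 ⟨iha _ h1.1 h2.1, ihb _ h1.2 h2.2⟩

omit hg in
theorem nn_conz {a : T α} (h : nnT g a = true) : nnT g (conz a) = true := by
  rcases a with _ | c | ⟨x, y⟩
  · rfl
  · exact nn_n.2 ⟨rfl, h⟩
  · exact nn_n.2 ⟨rfl, h⟩

omit hg in
theorem nn_lift {a : T α} (h : nnT g a = true) : nnT g (lift a) = true := by
  rcases a with _ | c | ⟨x, y⟩
  · rfl
  · exact h
  · exact nn_n.2 ⟨h, rfl⟩

omit hg in
theorem nn_mnx {a : T α} (h : nnT g a = true) : nnT g (mnx a) = true := by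
  induction a with
  | z => rfl
  | l c => exact nn_n.2 ⟨nn_n.2 ⟨rfl, h⟩, rfl⟩
  | n x y _ ihy =>
    rw [nn_n] at h
    exact nn_n.2 ⟨nn_conz h.1, ihy h.2⟩

/-- all members have nonnegative coefficients -/
def NN (g : α → Bool) (L : List (T α)) : Prop := ∀ x ∈ L, nnT g x = true

omit hg in
theorem NN_nil : NN g ([] : List (T α)) := fun _ h => absurd h (List.not_mem_nil)

omit hg in
theorem NN_cons {x : T α} {L : List (T α)} : NN g (x :: L) ↔ nnT g x = true ∧ NN g L := by
  simp [NN]

omit hg in
theorem NN_lmap {F : T α → T α} (hF : ∀ x, nnT g x = true → nnT g (F x) = true) :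
    ∀ L : List (T α), NN g L → NN g (lmap F L)
  | [], _ => NN_nil
  | x :: L, h => by
    rw [NN_cons] at h
    exact NN_cons.2 ⟨hF _ h.1, NN_lmap hF L h.2⟩

theorem NN_addW : ∀ L M : List (T α), NN g L → NN g M → NN g (addW f L M)
  | [], M, _, h => h
  | x :: L, [], h, _ => h
  | x :: L, y :: M, h1, h2 => by
    rw [NN_cons] at h1 h2
    exact NN_cons.2 ⟨nn_tadd hg _ _ h1.1 h2.1, NN_addW L M h1.2 h2.2⟩

theorem NN_lo {t : T α} (h : nnT g t = true) : NN g (lo f t) := by
  induction t with
  | z => exact NN_nil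
  | l c => exact NN_cons.2 ⟨h, NN_nil⟩
  | n a b iha ihb =>
    rw [nn_n] at h
    have h1 := iha h.1
    have h2 := ihb h.2
    exact NN_addW hg _ _ (NN_lmap (fun _ => nn_lift) _ h1) (NN_addW hg _ _
      (NN_lmap (fun _ => nn_mnx) _ h2) (NN_cons.2 ⟨rfl, NN_lmap (fun _ => nn_conz) _ h2⟩))

theorem NN_lo1 {t : T α} (h : nnT g t = true) : NN g (lo1 f t) := by
  induction t with
  | z => exact NN_nil
  | l c => exact NN_cons.2 ⟨h, NN_nil⟩
  | n a b _ ihb =>
    rw [nn_n] at h
    have h2 := ihb h.2
    exact NN_addW hg _ _ (NN_lo hg h.1) (NN_addW hg _ _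
      (NN_lmap (fun _ => nn_conz) _ h2) (NN_cons.2 ⟨rfl, h2⟩))

theorem NN_mvT : ∀ (L : List (T α)) (p : T α), nnT g p = true → NN g L → NN g (mvT f L p)
  | [], p, h, _ => NN_cons.2 ⟨h, NN_nil⟩
  | x :: L, p, h, h2 => by
    rw [NN_cons] at h2
    exact NN_cons.2 ⟨nn_tadd hg _ _ h h2.1, NN_mvT L x h2.1 h2.2⟩

theorem NN_hvT : ∀ L : List (T α), NN g L → NN g (hvT f L)
  | [], _ => NN_nil
  | x :: L, h => by
    rw [NN_cons] at h
    exact NN_mvT hg _ _ h.1 (NN_hvT L h.2)

omit hg in
theorem NN_tail {L : List (T α)} (h : NN g L) : NN g (tailT L) := by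
  rcases L with _ | ⟨x, L⟩
  · exact NN_nil
  · exact (NN_cons.1 h).2

theorem NN_chT {t : T α} (h : nnT g t = true) : NN g (chT f t) :=
  NN_hvT hg _ (NN_tail (NN_lo1 hg h))

omit hg in
theorem nth_nn : ∀ (L : List (T α)), NN g L → ∀ k, nnT g (nth L k) = true
  | [], _, _ => rfl
  | x :: L, h, k => by
    rw [NN_cons] at h
    rcases k with _ | k
    · exact h.1
    · exact nth_nn L h.2 k

omit hg in
theorem ev_nn {e : ℕ → ℝ} (he : ∀ i, 0 ≤ e i) (hgv : ∀ a, g a = true → 0 ≤ v a) :
    ∀ (t : T α) (i : ℕ), nnT g t = true → 0 ≤ evT v e t i := by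
  intro t
  induction t with
  | z => intro i _; simp [evT]
  | l c => intro i h; exact hgv c h
  | n a b iha ihb =>
    intro i h
    rw [nn_n] at h
    have h1 := iha (i + 1) h.1
    have h2 := ihb i h.2
    have h3 := he i
    rw [evT]; positivity

end nn

end Pool.Agent.H40.FC
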